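import Pool.Agent.U762.DZ.Stm
import Pool.Agent.U594.RP.AVG
import Pool.Agent.U492.RP.AVGm

set_option autoImplicit false

/-!
Project DZ (helper762), package AVGd: averages of the killed annealed chain over arithmetic progressions,
laws which vary slowly. Adaptation of `Pool/Agent/U594/RP/AVG.lean` and `Pool/Agent/U492/RP/AVGm.lean`.
-/

namespace Pool.Agent.U891.DZ

open Finset Pool.Agent.U762.RP Pool.Agent.U762.DZ

theorem pw_nonneg (θ : ℝ) (x : ℤ) : 0 ≤ pw θ x := Real.rpow_nonneg (abs_nonneg _) _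

theorem P_nonneg {d : ℕ} {m r : ℤ → ℤ} {w : ℤ → ℤ → ℝ} (hw : ∀ x u, 0 ≤ w x u) (B : ℤ → ℕ) (M : ℝ)
    {F : ℤ → ℝ} (hF : ∀ x, 0 ≤ F x) (x : ℤ) : 0 ≤ P d m r w B M F x := by
  unfold P
  split_ifs
  · exact le_rfl
  · exact Finset.sum_nonneg fun u _ => mul_nonneg (hw x u) (hF _)

theorem Pit_nonneg {d : ℕ} {m r : ℤ → ℤ} {w : ℤ → ℤ → ℝ} (hw : ∀ x u, 0 ≤ w x u) (B : ℤ → ℕ)
    (M θ : ℝ) (k : ℕ) : ∀ x, 0 ≤ (P d m r w B M)^[k] (pw θ) x := by
  induction k with
  | zero => exact pw_nonneg θ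
  | succ k ih =>
    intro x
    rw [Function.iterate_succ_apply']
    exact P_nonneg hw B M ih x

/-- one step, with a dominating measure -/
theorem P_le {d : ℕ} {m r : ℤ → ℤ} {w : ℤ → ℤ → ℝ} (B : ℤ → ℕ) (M : ℝ)
    {F : ℤ → ℝ} (hF : ∀ x, 0 ≤ F x) (x : ℤ) {B' : ℕ} {w' : ℤ → ℝ} (hw' : ∀ u, 0 ≤ w' u)
    (hB : B x ≤ B') (hdom : ∀ u : ℤ, |u| ≤ B x → w x u ≤ w' u) :
    P d m r w B M F x ≤ ∑ u ∈ Icc (-(B' : ℤ)) B', w' u * F (T d m r x + u) := by
  unfold P
  split_ifs
  · exact Finset.sum_nonneg fun u _ => mul_nonneg (hw' u) (hF _)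
  · calc ∑ u ∈ Icc (-(B x : ℤ)) (B x), w x u * F (T d m r x + u)
        ≤ ∑ u ∈ Icc (-(B x : ℤ)) (B x), w' u * F (T d m r x + u) := by
          refine Finset.sum_le_sum fun u hu => ?_
          rw [Finset.mem_Icc] at hu
          exact mul_le_mul_of_nonneg_right (hdom u (abs_le.mpr hu)) (hF _)
      _ ≤ _ := by
          refine Finset.sum_le_sum_of_subset_of_nonneg ?_ fun u _ _ => mul_nonneg (hw' u) (hF _)
          exact Finset.Icc_subset_Icc (by omega) (by omega)

theorem t_AVGd : S_AVGd := by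
  intro d m r h η hη
  have hd : 0 < d := by have := h.two_le; omega
  have hdR : (0 : ℝ) < d := by exact_mod_cast hd
  have hd1 : (1 : ℝ) ≤ d := by exact_mod_cast hd
  have hmj : ∀ j ∈ range d, (0 : ℝ) < (m (j : ℤ) : ℝ) := by
    intro j hj
    have hjd : (j : ℤ) < d := by exact_mod_cast Finset.mem_range.mp hj
    exact_mod_cast h.pos (j : ℤ) (by positivity) hjd
  have hfac0 : ∀ j ∈ range d, 0 ≤ fac d m η j := by
    intro j hj
    have h1 := hmj j hj
    unfold fac
    positivity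
  have hfacb : ∀ j ∈ range d, fac d m η j ≤ bb d m η := by
    intro j hj
    have h1 := Finset.single_le_sum (f := fun j : ℕ => fac d m η j) (fun i hi => hfac0 i hi) hj
    have h2 : fac d m η j ≤ ∑ j ∈ range d, fac d m η j := h1
    unfold bb
    linarith
  have hbb1 : 1 ≤ bb d m η := by
    have : 0 ≤ ∑ j ∈ range d, fac d m η j := Finset.sum_nonneg hfac0
    unfold bb
    linarith
  obtain ⟨μ, hμ⟩ : ∃ μ : ℝ, μ = min 1 η := ⟨_, rfl⟩
  have hμ0 : 0 < μ := by rw [hμ]; exact lt_min one_pos hη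
  have hμ1 : μ ≤ 1 := by rw [hμ]; exact min_le_left _ _
  have hμη : μ ≤ η := by rw [hμ]; exact min_le_right _ _
  set z₀' : ℝ := 1 + ∑ j ∈ range d, 4 * |((r (j : ℤ) : ℤ) : ℝ)| / μ with hz₀'
  have hterm : ∀ j ∈ range d, 4 * |((r (j : ℤ) : ℤ) : ℝ)| / μ ≤ z₀' := by
    intro j hj
    have := Finset.single_le_sum (f := fun j : ℕ => 4 * |((r (j : ℤ) : ℤ) : ℝ)| / μ)
      (fun i _ => by positivity) hj
    have h2 : 4 * |((r (j : ℤ) : ℤ) : ℝ)| / μ ≤ ∑ j ∈ range d, 4 * |((r (j : ℤ) : ℤ) : ℝ)| / μ := this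
    linarith
  refine ⟨z₀', μ / (4 * d), ?_, by positivity, ?_⟩
  · have : 0 ≤ ∑ j ∈ range d, 4 * |((r (j : ℤ) : ℤ) : ℝ)| / μ :=
      Finset.sum_nonneg fun i _ => by positivity
    linarith
  intro w B β z₀ z₁ E hz₀ hβ hL M θ hθ hθ1 k
  have hz₀1 : 1 ≤ z₀ := by
    have : 0 ≤ ∑ j ∈ range d, 4 * |((r (j : ℤ) : ℤ) : ℝ)| / μ :=
      Finset.sum_nonneg fun i _ => by positivity
    linarith
  have hρ : 0 ≤ (∑ j ∈ range d, fac d m η j ^ θ) / d * (1 + β) := by
    have h1 : 0 ≤ (∑ j ∈ range d, fac d m η j ^ θ) / d :=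
      div_nonneg (Finset.sum_nonneg fun j hj => Real.rpow_nonneg (hfac0 j hj) _) hdR.le
    positivity
  induction k with
  | zero =>
    intro i _ c y _ zl z _ _ _ hxz
    simp only [Function.iterate_zero, id_eq, pow_zero, mul_one]
    have h1 : ∀ u ∈ range (d ^ i), pw θ (y + c * u) ≤ z ^ θ := by
      intro u hu
      have := (hxz u (Finset.mem_range.mp hu)).2
      exact Real.rpow_le_rpow (abs_nonneg _) this hθ
    calc ∑ u ∈ range (d ^ i), pw θ (y + c * u) ≤ ∑ u ∈ range (d ^ i), z ^ θ := Finset.sum_le_sum h1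
      _ = (d : ℝ) ^ i * z ^ θ := by simp
  | succ k ih =>
    intro i hki c y hc zl z hzl hzz hcE hxz
    obtain ⟨i', rfl⟩ : ∃ i', i = i' + 1 := ⟨i - 1, by omega⟩
    have hki' : k ≤ i' := by omega
    have h2d : (1 : ℝ) ≤ 2 * d := by linarith
    have hbbk : 1 ≤ bb d m η ^ (k + 1) := one_le_pow₀ hbb1
    have hz0zl : z₀ ≤ zl := by
      have h1 : (1 : ℝ) ≤ (2 * d : ℝ) ^ (k + 1) := one_le_pow₀ h2d
      have h2 : 1 * z₀ ≤ (2 * d : ℝ) ^ (k + 1) * z₀ := mul_le_mul_of_nonneg_right h1 (by linarith)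
      linarith
    have hy := hxz 0 (by positivity)
    simp only [Nat.cast_zero, mul_zero, add_zero] at hy
    have hzlz : zl ≤ z := hy.1.trans hy.2
    have hz : 0 ≤ z := by linarith
    have hzz1 : z ≤ z₁ := by
      have h1 : z * 1 ≤ z * bb d m η ^ (k + 1) := mul_le_mul_of_nonneg_left hbbk hz
      linarith
    obtain ⟨B', w', hB', hw', hmass, hdom⟩ := hL.slow y (hz0zl.trans hy.1) (hy.2.trans hzz1)
    -- the constants of one step
    have hsmall : ∀ j ∈ range d, |((r (j : ℤ) : ℤ) : ℝ)| + d * B' ≤ μ * z₀ / 2 := by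
      intro j hj
      have h1 : 4 * |((r (j : ℤ) : ℤ) : ℝ)| / μ ≤ z₀ := (hterm j hj).trans hz₀
      rw [div_le_iff₀ hμ0] at h1
      have h2 : (d : ℝ) * B' ≤ d * (μ / (4 * d) * z₀) := mul_le_mul_of_nonneg_left hB' hdR.le
      have h3 : (d : ℝ) * (μ / (4 * d) * z₀) = μ * z₀ / 4 := by
        field_simp
      linarith
    have hup : ∀ j ∈ range d, (|((r (j : ℤ) : ℤ) : ℝ)| + d * B') / η ≤ z := by
      intro j hj
      rw [div_le_iff₀ hη]
      have h1 := hsmall j hj
      have h2 : μ * z₀ ≤ η * z := mul_le_mul hμη (by linarith) (by linarith) hη.le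
      have h3 : 0 ≤ μ * z₀ := by positivity
      nlinarith
    have hlo : ∀ j ∈ range d, (|((r (j : ℤ) : ℤ) : ℝ)| + d * B') / (1 / 2 : ℝ) ≤ zl := by
      intro j hj
      have h1 := hsmall j hj
      have h2 : μ * z₀ ≤ 1 * zl := mul_le_mul hμ1 hz0zl (by linarith) (by norm_num)
      rw [div_le_iff₀ (by norm_num : (0 : ℝ) < 1 / 2)]
      linarith
    set F : ℤ → ℝ := (P d m r w B M)^[k] (pw θ) with hF
    have hF0 : ∀ x, 0 ≤ F x := Pit_nonneg hL.nonneg B M θ k
    have hit : ∀ x, (P d m r w B M)^[k + 1] (pw θ) x = P d m r w B M F x := by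
      intro x
      rw [Function.iterate_succ_apply']
    simp only [hit]
    -- one step for all points of the progression
    have hstep : ∀ v : ℕ, v < d ^ (i' + 1) → P d m r w B M F (y + c * (v : ℤ)) ≤
        ∑ u ∈ Icc (-(B' : ℤ)) B', w' u * F (T d m r (y + c * (v : ℤ)) + u) := by
      intro v hv
      have h1 : |((y + c * (v : ℤ) : ℤ) : ℝ) - y| ≤ E := by
        refine le_trans ?_ hcE
        push_cast
        rw [add_sub_cancel_left, abs_mul, Nat.abs_cast]
        have h2 : (v : ℝ) ≤ (d : ℝ) ^ (i' + 1) := by exact_mod_cast hv.le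
        calc |(c : ℝ)| * (v : ℝ) ≤ |(c : ℝ)| * (d : ℝ) ^ (i' + 1) :=
              mul_le_mul_of_nonneg_left h2 (abs_nonneg _)
          _ = |(c : ℝ)| * (d : ℝ) ^ (i' + 1) * 1 := (mul_one _).symm
          _ ≤ _ := mul_le_mul_of_nonneg_left hbbk (by positivity)
      obtain ⟨h3, h4⟩ := hdom _ h1
      exact P_le B M hF0 _ hw' h3 h4
    -- the bound for a fixed class `s`
    have key : ∀ s ∈ range d, ∑ v ∈ range (d ^ i'), P d m r w B M F (y + c * ((s + d * v : ℕ) : ℤ)) ≤
        (d : ℝ) ^ i' * ((∑ j ∈ range d, fac d m η j ^ θ) / d * (1 + β)) ^ k * (1 + β) *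
          (fac d m η ((y + c * (s : ℤ)) % d).toNat ^ θ * z ^ θ) := by
      intro s hs
      set j : ℕ := ((y + c * (s : ℤ)) % d).toNat with hj
      have hd' : (0 : ℤ) < d := by exact_mod_cast hd
      have hj1 := Int.emod_nonneg (y + c * (s : ℤ)) hd'.ne'
      have hj2 := Int.emod_lt_of_pos (y + c * (s : ℤ)) hd'
      have hjj : (y + c * (s : ℤ)) % d = (j : ℤ) := by omega
      have hjr : j ∈ range d := by rw [Finset.mem_range]; omega
      have hxv : ∀ v : ℕ, y + c * ((s + d * v : ℕ) : ℤ) = (y + c * s) + d * (c * v) := by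
        intro v; push_cast; ring
      have hTv : ∀ v : ℕ, T d m r (y + c * ((s + d * v : ℕ) : ℤ))
          = T d m r (y + c * s) + m (j : ℤ) * c * v := by
        intro v
        rw [hxv v, Pool.Agent.U594.RP.T_shift hd, hjj]
        ring
      have hltv : ∀ v : ℕ, v < d ^ i' → s + d * v < d ^ (i' + 1) := by
        intro v hv
        have hs' := Finset.mem_range.mp hs
        calc s + d * v < d + d * v := by omega
          _ = d * (v + 1) := by ring
          _ ≤ d * d ^ i' := Nat.mul_le_mul_left _ hv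
          _ = d ^ (i' + 1) := by ring
      have hb : ∀ v : ℕ, v < d ^ i' → ∀ u ∈ Icc (-(B' : ℤ)) B',
          zl / (2 * d) ≤ |((T d m r (y + c * s) + u + m (j : ℤ) * c * v : ℤ) : ℝ)| ∧
          |((T d m r (y + c * s) + u + m (j : ℤ) * c * v : ℤ) : ℝ)| ≤ fac d m η j * z := by
        intro v hv u hu
        have hu' : |u| ≤ B' := by
          rw [Finset.mem_Icc] at hu
          exact abs_le.mpr hu
        have h1 := hxz _ (hltv v hv)
        have h2 : (y + c * ((s + d * v : ℕ) : ℤ)) % d = (j : ℤ) := by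
          rw [hxv v, Int.add_mul_emod_self_left, hjj]
        have h3 := Pool.Agent.U594.RP.step_bound h hη B' j hjr (hup j hjr) _ h2 h1.2 u hu'
        have h3' := Pool.Agent.U492.RP.step_lower h (by norm_num : (0 : ℝ) < 1 / 2) B' j hjr
          (hlo j hjr) _ h2 h1.1 u hu'
        rw [hTv v] at h3 h3'
        have h4 : T d m r (y + c * s) + u + m (j : ℤ) * c * v
            = T d m r (y + c * s) + m (j : ℤ) * c * v + u := by ring
        rw [h4]
        refine ⟨?_, h3⟩
        have h5 := Pool.Agent.U492.RP.facm_lower h (η := 1 / 2) le_rfl j hjr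
        have h6 : 1 / (2 * d : ℝ) * zl ≤ facm d m (1 / 2) j * zl :=
          mul_le_mul_of_nonneg_right h5 (by linarith)
        have h7 : zl / (2 * d) = 1 / (2 * d : ℝ) * zl := by ring
        rw [h7]
        exact h6.trans h3'
      have hcop : IsCoprime (m (j : ℤ) * c) (d : ℤ) := by
        have hjd : (j : ℤ) < d := by exact_mod_cast Finset.mem_range.mp hjr
        exact IsCoprime.mul_left (h.cop (j : ℤ) (by positivity) hjd) hc
      have hzl' : (2 * d : ℝ) ^ k * z₀ ≤ zl / (2 * d) := by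
        rw [le_div_iff₀ (by positivity)]
        refine le_trans (le_of_eq ?_) hzl
        rw [pow_succ]
        ring
      have hz' : fac d m η j * z * bb d m η ^ k ≤ z₁ := by
        refine le_trans ?_ hzz
        rw [pow_succ]
        have h1 : fac d m η j * z ≤ bb d m η * z := mul_le_mul_of_nonneg_right (hfacb j hjr) hz
        calc fac d m η j * z * bb d m η ^ k ≤ bb d m η * z * bb d m η ^ k :=
              mul_le_mul_of_nonneg_right h1 (by positivity)
          _ = _ := by ring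
      have hmb : (m (j : ℤ) : ℝ) ≤ d * bb d m η := by
        have h1 := hfacb j hjr
        have h2 : (m (j : ℤ) : ℝ) / d ≤ fac d m η j := by
          unfold fac
          have h3 := hmj j hjr
          have h4 : 0 ≤ (m (j : ℤ) : ℝ) / d := by positivity
          nlinarith
        have h3 := h2.trans h1
        rw [div_le_iff₀ hdR] at h3
        linarith
      have hcE' : |((m (j : ℤ) * c : ℤ) : ℝ)| * (d : ℝ) ^ i' * bb d m η ^ k ≤ E := by
        refine le_trans ?_ hcE
        push_cast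
        rw [abs_mul, abs_of_pos (hmj j hjr)]
        calc (m (j : ℤ) : ℝ) * |(c : ℝ)| * (d : ℝ) ^ i' * bb d m η ^ k
            = (m (j : ℤ) : ℝ) * (|(c : ℝ)| * (d : ℝ) ^ i' * bb d m η ^ k) := by ring
          _ ≤ (d * bb d m η) * (|(c : ℝ)| * (d : ℝ) ^ i' * bb d m η ^ k) :=
              mul_le_mul_of_nonneg_right hmb (by positivity)
          _ = _ := by rw [pow_succ, pow_succ]; ring
      have hih : ∀ u ∈ Icc (-(B' : ℤ)) B',
          ∑ v ∈ range (d ^ i'), F (T d m r (y + c * s) + u + m (j : ℤ) * c * v) ≤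
            (d : ℝ) ^ i' * ((∑ j ∈ range d, fac d m η j ^ θ) / d * (1 + β)) ^ k *
              (fac d m η j * z) ^ θ := by
        intro u hu
        exact ih i' hki' (m (j : ℤ) * c) (T d m r (y + c * s) + u) hcop (zl / (2 * d))
          (fac d m η j * z) hzl' hz' hcE' (fun v hv => hb v hv u hu)
      have hrpow : (fac d m η j * z) ^ θ = fac d m η j ^ θ * z ^ θ := Real.mul_rpow (hfac0 j hjr) hz
      have hX : 0 ≤ (d : ℝ) ^ i' * ((∑ j ∈ range d, fac d m η j ^ θ) / d * (1 + β)) ^ k *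
          (fac d m η j ^ θ * z ^ θ) := by
        have h1 := Real.rpow_nonneg hz θ
        have h2 := Real.rpow_nonneg (hfac0 j hjr) θ
        positivity
      calc ∑ v ∈ range (d ^ i'), P d m r w B M F (y + c * ((s + d * v : ℕ) : ℤ))
          ≤ ∑ v ∈ range (d ^ i'), ∑ u ∈ Icc (-(B' : ℤ)) B',
              w' u * F (T d m r (y + c * s) + u + m (j : ℤ) * c * v) := by
            refine Finset.sum_le_sum fun v hv => ?_
            refine (hstep _ (hltv v (Finset.mem_range.mp hv))).trans (le_of_eq ?_)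
            refine Finset.sum_congr rfl fun u _ => ?_
            rw [hTv v]
            congr 2
            ring
        _ = ∑ u ∈ Icc (-(B' : ℤ)) B', w' u *
              ∑ v ∈ range (d ^ i'), F (T d m r (y + c * s) + u + m (j : ℤ) * c * v) := by
            rw [Finset.sum_comm]
            refine Finset.sum_congr rfl fun u _ => ?_
            rw [Finset.mul_sum]
        _ ≤ ∑ u ∈ Icc (-(B' : ℤ)) B', w' u *
              ((d : ℝ) ^ i' * ((∑ j ∈ range d, fac d m η j ^ θ) / d * (1 + β)) ^ k *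
                (fac d m η j ^ θ * z ^ θ)) := by
            refine Finset.sum_le_sum fun u hu => ?_
            have := hih u hu
            rw [hrpow] at this
            exact mul_le_mul_of_nonneg_left this (hw' u)
        _ = (∑ u ∈ Icc (-(B' : ℤ)) B', w' u) *
              ((d : ℝ) ^ i' * ((∑ j ∈ range d, fac d m η j ^ θ) / d * (1 + β)) ^ k *
                (fac d m η j ^ θ * z ^ θ)) := by rw [Finset.sum_mul]
        _ ≤ _ := by
            calc _ ≤ (1 + β) * ((d : ℝ) ^ i' * ((∑ j ∈ range d, fac d m η j ^ θ) / d * (1 + β)) ^ k *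
                (fac d m η j ^ θ * z ^ θ)) := mul_le_mul_of_nonneg_right hmass hX
              _ = _ := by ring
    have hpow : d ^ (i' + 1) = d * d ^ i' := by ring
    rw [hpow, Pool.Agent.U594.RP.sum_split d (d ^ i') (fun u => P d m r w B M F (y + c * (u : ℤ)))]
    refine (Finset.sum_le_sum key).trans (le_of_eq ?_)
    rw [← Finset.mul_sum, ← Finset.sum_mul,
      Pool.Agent.U594.RP.sum_residues hd hc y (fun j => fac d m η j ^ θ)]
    generalize (∑ j ∈ range d, fac d m η j ^ θ) = S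
    have hS : S = d * (S / d) := by field_simp
    generalize hρ' : S / (d : ℝ) = ρ' at hS ⊢
    rw [hS]
    ring

end Pool.Agent.U891.DZ
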